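import Mathlib

set_option autoImplicit false

namespace Pool.Agent.Results.MP_a67be6_gt.Counter

open Filter Topology Set
open scoped Cardinal

def ClosedDiscrete {X : Type} [TopologicalSpace X] (A : Set X) : Prop :=
  IsClosed A ∧ DiscreteTopology A

def SmallESep (X : Type) [TopologicalSpace X] : Prop :=
  ∃ E : ℕ → Set X, (∀ n, ClosedDiscrete (E n)) ∧ Dense (⋃ n, E n)

def BigESep (X : Type) [TopologicalSpace X] : Prop :=
  ∀ D : ℕ → Set X, (∀ n, Dense (D n)) →
    ∃ E : ℕ → Set X, (∀ n, E n ⊆ D n ∧ ClosedDiscrete (E n)) ∧ Dense (⋃ n, E n)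

theorem notBig (I Y : Type) [Nontrivial Y] [TopologicalSpace Y] [DiscreteTopology Y]
    (h1 : ℵ₀ < #I) (h2 : #Y < #I) : ¬ BigESep (I → Y) := by
  classical
  intro h
  obtain ⟨a, c, hac⟩ := exists_pair_ne Y
  let K : ℕ × List Y → Set (I → Y) := fun p => (univ.pi fun _ => {y | y ∈ p.2}) ∩
    ⋂ s : Finset I, {x | s.card = p.1 + 1 → ∃ i ∈ s, x i = a}
  have hK : ∀ p, IsCompact (K p) := fun p =>
    (isCompact_univ_pi fun _ => p.2.finite_toSet.isCompact).inter_right
      (isClosed_iInter fun s => by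
        by_cases hs : s.card = p.1 + 1
        · simp only [hs, true_imp_iff, ← exists_prop, setOf_exists]
          exact s.finite_toSet.isClosed_biUnion fun i _ =>
            isClosed_eq (continuous_apply i) continuous_const
        · simp [hs])
  have hD : Dense (⋃ p, K p) := by
    intro x
    rw [mem_closure_iff_nhds]
    intro U hU
    rw [nhds_pi, Filter.mem_pi'] at hU
    obtain ⟨s, t, h3, h4⟩ := hU
    refine ⟨s.piecewise x fun _ => a, h4 fun i hi => ?_,
      mem_iUnion.2 ⟨(s.card, a :: s.toList.map x), fun i _ => ?_, mem_iInter.2 fun r hr => ?_⟩⟩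
    · rw [s.piecewise_eq_of_mem _ _ hi]
      exact mem_of_mem_nhds (h3 i)
    · by_cases hi : i ∈ s
      · simp only [s.piecewise_eq_of_mem _ _ hi, mem_setOf_eq]
        exact List.mem_cons_of_mem _ (List.mem_map_of_mem (Finset.mem_toList.2 hi))
      · simp [s.piecewise_eq_of_notMem _ _ hi]
    · obtain ⟨i, h5, h6⟩ := Finset.exists_mem_notMem_of_card_lt_card (s := s) (t := r)
        (by rw [hr]; exact Nat.lt_succ_self _)
      exact ⟨i, h5, s.piecewise_eq_of_notMem _ _ h6⟩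
  obtain ⟨E, h3, h4⟩ := h (fun _ => ⋃ p, K p) fun _ => hD
  let S : ℕ × ℕ × List Y → Set I := fun q => ⋃ x ∈ K q.2 ∩ E q.1, {i | x i ≠ a}
  have hS : ∀ q, (S q).Finite := fun q =>
    (((hK q.2).inter_right (h3 q.1).2.1).finite
      (IsDiscrete.mono ⟨(h3 q.1).2.2⟩ inter_subset_right)).biUnion fun x hx => by
      by_contra hi
      obtain ⟨s, h5, h6⟩ := Set.Infinite.exists_subset_card_eq hi (q.2.1 + 1)
      obtain ⟨i, h7, h8⟩ := mem_iInter.1 hx.1.2 s h6
      exact h5 h7 h8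
  have hlt : #(⋃ q, S q) < #I := by
    refine (Cardinal.mk_iUnion_le S).trans_lt (Cardinal.mul_lt_of_lt h1.le ?_
      ((ciSup_le' fun q => (hS q).lt_aleph0.le).trans_lt h1))
    simp only [Cardinal.mk_prod, Cardinal.lift_id, Cardinal.mk_nat]
    exact Cardinal.mul_lt_of_lt h1.le h1 (Cardinal.mul_lt_of_lt h1.le h1
      ((Cardinal.mk_list_le_max Y).trans_lt (max_lt h1 h2)))
  obtain ⟨i, hi⟩ : ∃ i, i ∉ ⋃ q, S q := by
    by_contra h5
    push Not at h5
    rw [eq_univ_of_forall h5, Cardinal.mk_univ] at hlt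
    exact lt_irrefl _ hlt
  obtain ⟨x, h5, h6⟩ := h4.inter_open_nonempty ((fun x : I → Y => x i) ⁻¹' {c})
    ((isOpen_discrete {c}).preimage (continuous_apply i)) ⟨fun _ => c, rfl⟩
  obtain ⟨n, h7⟩ := mem_iUnion.1 h6
  obtain ⟨p, h8⟩ := mem_iUnion.1 ((h3 n).1 h7)
  exact hi (mem_iUnion.2 ⟨(n, p), mem_biUnion ⟨h8, h7⟩ fun e => hac (e.symm.trans h5)⟩)

theorem small (Y : Type) [Countable Y] [Nonempty Y] [TopologicalSpace Y] [DiscreteTopology Y] :
    SmallESep ((ℕ → Bool) → Y) := by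
  classical
  obtain ⟨e, he⟩ := exists_surjective_nat (Σ n : ℕ, ((Fin n → Bool) → Y))
  refine ⟨fun k => {fun h => (e k).2 fun j => h j}, fun k => ⟨isClosed_singleton, inferInstance⟩,
    fun x => ?_⟩
  rw [mem_closure_iff_nhds]
  intro U hU
  rw [nhds_pi, Filter.mem_pi'] at hU
  obtain ⟨s, t, h3, h4⟩ := hU
  have : ∀ᶠ n in atTop, ∀ h ∈ s, ∀ h' ∈ s,
      (fun j : Fin n => h j) = (fun j : Fin n => h' j) → h = h' := by
    refine (eventually_all_finset s).2 fun h _ => (eventually_all_finset s).2 fun h' _ => ?_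
    by_cases hh : h = h'
    · exact Eventually.of_forall fun _ _ => hh
    · obtain ⟨m, hm⟩ := Function.ne_iff.1 hh
      filter_upwards [eventually_gt_atTop m] with n hn h1
      exact absurd (congrFun h1 ⟨m, hn⟩) hm
  obtain ⟨n, hn⟩ := this.exists
  have hinj : Function.Injective fun (h : s) (j : Fin n) => h.1 j := fun u v huv =>
    Subtype.ext (hn _ u.2 _ v.2 huv)
  obtain ⟨k, hk⟩ := he ⟨n, Function.extend (fun (h : s) (j : Fin n) => h.1 j) (fun h => x h)
    fun _ => Classical.arbitrary Y⟩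
  refine ⟨_, h4 fun i hi => ?_, mem_iUnion.2 ⟨k, rfl⟩⟩
  rw [hk]
  have := hinj.extend_apply (fun h => x h) (fun _ => Classical.arbitrary Y) ⟨i, hi⟩
  simp only at this ⊢
  rw [this]
  exact mem_of_mem_nhds (h3 i)

theorem result (Y : Type) [Countable Y] [Nontrivial Y] [TopologicalSpace Y] [DiscreteTopology Y] :
    SmallESep ((ℕ → Bool) → Y) ∧ ¬ BigESep ((ℕ → Bool) → Y) := by
  have h0 : ℵ₀ < #(ℕ → Bool) := by simpa using Cardinal.aleph0_lt_continuum
  exact ⟨small Y, notBig _ Y h0 (Cardinal.mk_le_aleph0.trans_lt h0)⟩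

end Pool.Agent.Results.MP_a67be6_gt.Counter
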